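import Mathlib
import Pool.Agent.Lib.MP_11f428_an.Core

/-!
If the coefficient functionals of an M-basis form a boundedly complete M-basis of their closed
linear span, then the M-basis is shrinking.
-/

open Filter Topology Metric

namespace Pool.Agent.Results.MP_11f428_an.ShrinkingConverse

/-- The closed linear span `[v n]` of a sequence. -/
def closedSpan (𝕜 : Type*) {E : Type*} [RCLike 𝕜] [NormedAddCommGroup E] [NormedSpace 𝕜 E]
    (v : ℕ → E) : Submodule 𝕜 E :=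
  (Submodule.span 𝕜 (Set.range v)).topologicalClosure

/-- `x` is an M-basis of `E` with associated functionals `f`. -/
def IsMBasis {𝕜 E : Type*} [RCLike 𝕜] [NormedAddCommGroup E] [NormedSpace 𝕜 E]
    (x : ℕ → E) (f : ℕ → StrongDual 𝕜 E) : Prop :=
  closedSpan 𝕜 x = ⊤ ∧ (∀ i j, f i (x j) = if i = j then 1 else 0) ∧
    ∀ y : E, (∀ n, f n y = 0) → y = 0

/-- `x` is a boundedly complete M-basis with associated functionals `f`: every bounded sequence
which is Cauchy for the weak topology `σ(E, [f n])` converges in that topology to a point of `E`. -/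
def IsBoundedlyComplete {𝕜 E : Type*} [RCLike 𝕜] [NormedAddCommGroup E] [NormedSpace 𝕜 E]
    (x : ℕ → E) (f : ℕ → StrongDual 𝕜 E) : Prop :=
  IsMBasis x f ∧
    ∀ y : ℕ → E, Bornology.IsBounded (Set.range y) →
      (∀ g ∈ closedSpan 𝕜 f, CauchySeq fun j => g (y j)) →
        ∃ z : E, ∀ g ∈ closedSpan 𝕜 f, Tendsto (fun j => g (y j)) atTop (𝓝 (g z))

/-- The functionals `f n`, as vectors of the Banach space `[f n]`. -/
def dualVec {𝕜 E : Type*} [RCLike 𝕜] [NormedAddCommGroup E] [NormedSpace 𝕜 E]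
    (f : ℕ → StrongDual 𝕜 E) (n : ℕ) : closedSpan 𝕜 f :=
  ⟨f n, Submodule.le_topologicalClosure _ (Submodule.subset_span ⟨n, rfl⟩)⟩

/-- The canonical map `u : E → [f n]^*`, `u y g = g y`. -/
noncomputable def canon {𝕜 E : Type*} [RCLike 𝕜] [NormedAddCommGroup E] [NormedSpace 𝕜 E]
    (f : ℕ → StrongDual 𝕜 E) : E →L[𝕜] StrongDual 𝕜 (closedSpan 𝕜 f) :=
  (closedSpan 𝕜 f).subtypeL.flip

theorem canon_apply {𝕜 E : Type*} [RCLike 𝕜] [NormedAddCommGroup E] [NormedSpace 𝕜 E]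
    (f : ℕ → StrongDual 𝕜 E) (y : E) (g : closedSpan 𝕜 f) :
    canon f y g = (g : StrongDual 𝕜 E) y := rfl

/-- A bounded sequence that is Cauchy against each `ψ n` is Cauchy against `[ψ n]`. -/
theorem cauchySeq_of_mem_closedSpan {𝕜 V : Type*} [RCLike 𝕜] [NormedAddCommGroup V]
    [NormedSpace 𝕜 V] (ψ : ℕ → StrongDual 𝕜 V) (g : ℕ → V) (C : ℝ) (hg : ∀ j, ‖g j‖ ≤ C)
    (h : ∀ n, CauchySeq fun j => ψ n (g j)) :
    ∀ Φ ∈ closedSpan 𝕜 ψ, CauchySeq fun j => Φ (g j) := by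
  have hC : 0 ≤ C := (norm_nonneg _).trans (hg 0)
  have hspan : ∀ Φ ∈ Submodule.span 𝕜 (Set.range ψ), CauchySeq fun j => Φ (g j) := by
    intro Φ hΦ
    induction hΦ using Submodule.span_induction with
    | mem Φ hΦ => obtain ⟨n, rfl⟩ := hΦ; exact h n
    | zero => simpa using cauchySeq_const (0 : 𝕜)
    | add Φ Ψ _ _ h1 h2 => exact h1.add h2
    | smul c Φ _ h1 => exact (uniformContinuous_const_smul c).comp_cauchySeq h1
  intro Φ hΦ
  rw [Metric.cauchySeq_iff]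
  intro ε hε
  have hδ : 0 < ε / (3 * (C + 1)) := by positivity
  obtain ⟨Ψ, hΨ, hd⟩ := Metric.mem_closure_iff.mp hΦ _ hδ
  obtain ⟨N, hN⟩ := Metric.cauchySeq_iff.mp (hspan Ψ hΨ) (ε / 3) (by positivity)
  have hclose : ∀ j, dist (Φ (g j)) (Ψ (g j)) ≤ ε / 3 := by
    intro j
    rw [dist_eq_norm] at hd ⊢
    have h1 : ‖(Φ - Ψ) (g j)‖ ≤ ‖Φ - Ψ‖ * ‖g j‖ := (Φ - Ψ).le_opNorm _
    have h2 : ‖Φ - Ψ‖ * ‖g j‖ ≤ ε / (3 * (C + 1)) * (C + 1) :=
      mul_le_mul hd.le ((hg j).trans (by linarith)) (norm_nonneg _) hδ.le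
    have h3 : ε / (3 * (C + 1)) * (C + 1) = ε / 3 := by field_simp
    simpa [h3] using h1.trans (h2.trans h3.le)
  refine ⟨N, fun m hm n hn => ?_⟩
  have h4 := hN m hm n hn
  have h5 := hclose m
  have h6 := hclose n
  rw [dist_comm] at h6
  have h7 := dist_triangle4 (Φ (g m)) (Ψ (g m)) (Ψ (g n)) (Φ (g n))
  linarith

/-- Every functional dominated by the seminorm `‖u y‖` belongs to `[f n]`. -/
theorem mem_of_dominated {𝕜 E : Type*} [RCLike 𝕜] [NormedAddCommGroup E] [NormedSpace 𝕜 E]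
    (x : ℕ → E) (f : ℕ → StrongDual 𝕜 E) (hx : closedSpan 𝕜 x = ⊤)
    (hbc : IsBoundedlyComplete (dualVec f) fun n => canon f (x n))
    (φ : StrongDual 𝕜 E) (C : ℝ) (hC : 0 ≤ C) (hφ : ∀ y, ‖φ y‖ ≤ C * ‖canon f y‖) :
    φ ∈ closedSpan 𝕜 f := by
  have happ := fun N : ℕ => Pool.Agent.Lib.MP_11f428_an.exists_approx (canon f) φ C hC hφ x N
    (1 / ((N : ℝ) + 1)) (by positivity)
  choose g hg1 hg2 using happ
  have hlim : ∀ n, Tendsto (fun j => canon f (x n) (g j)) atTop (𝓝 (φ (x n))) := by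
    intro n
    rw [tendsto_iff_norm_sub_tendsto_zero]
    refine squeeze_zero' (Eventually.of_forall fun j => norm_nonneg _) ?_
      tendsto_one_div_add_atTop_nhds_zero_nat
    filter_upwards [eventually_gt_atTop n] with j hj using (hg2 j n hj).le
  have hbd : Bornology.IsBounded (Set.range g) := by
    rw [isBounded_iff_forall_norm_le]
    exact ⟨C, by rintro _ ⟨j, rfl⟩; exact hg1 j⟩
  obtain ⟨z, hz⟩ := hbc.2 g hbd
    (cauchySeq_of_mem_closedSpan _ g C hg1 fun n => (hlim n).cauchySeq)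
  have hzx : ∀ n, (z : StrongDual 𝕜 E) (x n) = φ (x n) := by
    intro n
    have h1 := hz (canon f (x n))
      (Submodule.le_topologicalClosure _ (Submodule.subset_span ⟨n, rfl⟩))
    exact tendsto_nhds_unique h1 (hlim n)
  have hdense : Dense (Submodule.span 𝕜 (Set.range x) : Set E) :=
    Submodule.dense_iff_topologicalClosure_eq_top.mpr hx
  have heq : (z : StrongDual 𝕜 E) = φ :=
    ContinuousLinearMap.ext_on hdense (by rintro _ ⟨n, rfl⟩; exact hzx n)
  rw [← heq]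
  exact z.2

theorem result {𝕜 E : Type*} [RCLike 𝕜] [NormedAddCommGroup E] [NormedSpace 𝕜 E]
    [CompleteSpace E] (x : ℕ → E) (f : ℕ → StrongDual 𝕜 E) (hM : IsMBasis x f)
    (hbc : IsBoundedlyComplete (dualVec f) fun n => canon f (x n)) :
    closedSpan 𝕜 f = ⊤ := by
  have hinj : ∀ y, canon f y = 0 → y = 0 := by
    intro y hy
    refine hM.2.2 y fun n => ?_
    have := congrArg (fun Φ : StrongDual 𝕜 (closedSpan 𝕜 f) => Φ (dualVec f n)) hy
    simpa [canon_apply, dualVec] using this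
  have hbelow : ∀ y, ‖y‖ ≤ 2 * ‖canon f y‖ := by
    refine Pool.Agent.Lib.MP_11f428_an.bounded_below (canon f) hinj fun φ C hC hφ => ?_
    exact ⟨⟨φ, mem_of_dominated x f hM.1 hbc φ C hC hφ⟩, rfl, fun _ => rfl⟩
  rw [eq_top_iff]
  intro φ _
  refine mem_of_dominated x f hM.1 hbc φ (‖φ‖ * 2) (by positivity) fun y => ?_
  calc ‖φ y‖ ≤ ‖φ‖ * ‖y‖ := φ.le_opNorm y
    _ ≤ ‖φ‖ * (2 * ‖canon f y‖) := mul_le_mul_of_nonneg_left (hbelow y) (norm_nonneg _)
    _ = ‖φ‖ * 2 * ‖canon f y‖ := by ring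

end Pool.Agent.Results.MP_11f428_an.ShrinkingConverse
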